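import Pool.Agent.N733.TG.K
import Pool.Agent.Results.MP_be1fae_nt.WindowsWithoutSolutions

/-!
# No solutions of the generalised Fermat equation near functions of the values of multiplicative functions

A solution `a x ^ p + b y ^ q = c z ^ r` with coefficients composed of primes of `S` is called reduced if no prime of `S`
divides `x y z` and `|x|`, `|y|`, `|z|` are `1` or no perfect powers; every solution becomes reduced if the primes of `S`
in the bases are moved to the coefficients and perfect powers to the exponents (which become larger).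

Let `f` be a positive multiplicative function of at most polynomial growth such that `f p ≤ M p` for the large primes `p`,
with different values at different large primes; for example Euler's function or the sum of the divisors. Let `G` have steps
bounded below by a positive constant and growth at most `v^d`, `d ≥ 1`; for example `G v = α v^d`. Let `0 ≤ θ < 1`.
If `2 ∉ S`, there is `R` (depending on `S`, `d`, `θ`) such that for all `m ≤ N` but `N / (log N)^U` there is NO reduced
solution with two exponents `≥ R` and `|max (|x|, |y|, |z|) - G (f m)| ≤ f(m)^θ`. If `d / 3 + θ < 1` there is, for every `S`,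
such an `R` for the windows `||x y z| - G (f m)| ≤ f(m)^θ`. The values of `f` are in general taken with very large
multiplicities, and so this does not follow from the number of the solutions.

Proof. Write `m = k w` where `k` is composed of the primes `≤ z = N^(1 / J)`, `J` about `log log N`. For most `m` one has
`k ≤ N^η`, and `w` is a product of at most `J` different primes. So `f(w)` is taken at most `(1 + τ)^J` times, `τ` its number of
divisors, which is at most `N^o(1)` on average, even in mean square: and the exceptional set has a power saving. The number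
of the solutions is bounded by the starting theorem `AllSolutionsByBases` of this problem.
-/

set_option autoImplicit false

open Finset

namespace Pool.Agent.N611.Shelf.Be1faeMultiplicativeValues

open Pool.Agent.N733.TG (LM Expanding lm_totient lm_sigma keep_win_nat expanding_pow)
open AllSolutionsByBases (Solution TwoLarge ByBases ByProduct Bases)
open WindowsWithoutSolutions (Reduced Val card_val)

/-- **No solutions near the values of multiplicative functions.** Let `f` be multiplicative and positive, of at most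
polynomial growth, with `f p ≤ M p` at the large primes, and injective there. Let `G` have steps `≥ a > 0` and growth at
most `v^d`. Let `S` be a finite set and `0 ≤ θ < 1`.
(1) If `2 ∉ S` there is `R`, depending only on `S`, `d` and `θ`, such that for every `U` and all large `N`, for all `m ≤ N`
but `N / (log N)^U`, there is no reduced `S`-solution `a x ^ p + b y ^ q = c z ^ r` with at least two exponents `≥ R` and
`|max (|x|, |y|, |z|) - G (f m)| ≤ f(m)^θ`.
(2) If `d / 3 + θ < 1` there is `R`, depending only on `S`, `d` and `θ`, such that for every `U` and all large `N`, for all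
`m ≤ N` but `N / (log N)^U`, there is no reduced `S`-solution with at least two exponents `≥ R` and
`||x y z| - G (f m)| ≤ f(m)^θ`.
Euler's function and the sum of the divisors are examples of such functions `f`, and `α v^d` with `α > 0`, `d ≥ 1` is an
example of `G`. -/
theorem result :
    (∀ (S : Finset ℕ) (d θ : ℝ), 1 ≤ d → 0 ≤ θ →
      (2 ∉ S → θ < 1 → ∃ R : ℕ, ∀ G : ℕ → ℝ, Expanding G d → ∀ f : ℕ → ℕ, LM f →
        ∀ U : ℕ, ∃ N₀ : ℕ, ∀ N : ℕ, N₀ ≤ N →
        ({m : ℕ | 1 ≤ m ∧ m ≤ N ∧ ∃ (a b c x y z : ℤ) (p q r : ℕ), Reduced S R a b c x y z p q r ∧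
          |((max (max x.natAbs y.natAbs) z.natAbs : ℕ) : ℝ) - G (f m)| ≤ (f m : ℝ) ^ θ}.ncard : ℝ) ≤
            N / Real.log N ^ U) ∧
      (d / 3 + θ < 1 → ∃ R : ℕ, ∀ G : ℕ → ℝ, Expanding G d → ∀ f : ℕ → ℕ, LM f →
        ∀ U : ℕ, ∃ N₀ : ℕ, ∀ N : ℕ, N₀ ≤ N →
        ({m : ℕ | 1 ≤ m ∧ m ≤ N ∧ ∃ (a b c x y z : ℤ) (p q r : ℕ), Reduced S R a b c x y z p q r ∧
          |(((x * y * z).natAbs : ℕ) : ℝ) - G (f m)| ≤ (f m : ℝ) ^ θ}.ncard : ℝ) ≤ N / Real.log N ^ U)) ∧
    (LM Nat.totient ∧ LM (fun m => ∑ d ∈ m.divisors, d)) ∧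
    ∀ α d : ℝ, 0 < α → 1 ≤ d → Expanding (fun v => α * (v : ℝ) ^ d) d := by
  classical
  refine ⟨fun S d θ hd hθ => ⟨fun h2 hθ1 => ?_, fun h1 => ?_⟩, ⟨lm_totient, lm_sigma⟩,
    fun α d hα hd => expanding_pow hα hd⟩
  · have hδ0 : 0 < (1 - θ) / (2 * d) := div_pos (by linarith) (by linarith)
    have hδd : d * ((1 - θ) / (2 * d)) = (1 - θ) / 2 := by field_simp
    obtain ⟨R, C, hC, h⟩ := AllSolutionsByBases.result.2.1 S ((1 - θ) / (2 * d)) h2 hδ0
    refine ⟨R, fun G hG f hf U => ?_⟩
    obtain ⟨N₀, hN₀⟩ := keep_win_nat (Val S R (fun x y z => max (max x y) z)) hf hG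
      (s := (1 - θ) / (2 * d)) (κ := θ) hδ0.le hθ (by rw [hδd]; linarith) (fun ε hε => by
        refine ⟨C, fun X hX => ?_⟩
        have hX1 : (1 : ℝ) ≤ X := by exact_mod_cast hX
        obtain ⟨h5, h6⟩ := h X hX1
        have h7 := card_val S R (fun x y z => max (max x y) z) X (ByBases S R X) h5 (by
          intro a b c x y z p q r hred hle
          have hb : ∀ u : ℤ, u.natAbs ≤ X → |(u : ℝ)| ≤ X := by
            intro u hu
            have h8 : ((u.natAbs : ℕ) : ℝ) ≤ X := by exact_mod_cast hu
            rwa [Nat.cast_natAbs, Int.cast_abs] at h8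
          have hle' : max (max x.natAbs y.natAbs) z.natAbs ≤ X := hle
          rw [max_le_iff, max_le_iff] at hle'
          exact ⟨a, b, c, x, y, z, p, q, r, hred.1, rfl, hred.2.1, hred.2.2.2.2.2.2,
            hb x hle'.1.1, hb y hle'.1.2, hb z hle'.2⟩)
        have h9 : (((Ioc 0 X).filter (fun t => t ∈ Val S R (fun x y z => max (max x y) z))).card : ℝ) ≤
            ((ByBases S R X).ncard : ℝ) := by exact_mod_cast h7
        refine h9.trans (h6.trans ?_)
        apply mul_le_mul_of_nonneg_left _ hC.le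
        apply Real.rpow_le_rpow_of_exponent_le hX1
        linarith) U
    refine ⟨N₀, fun N hN => le_trans ?_ (hN₀ N hN)⟩
    have hsub : {m : ℕ | 1 ≤ m ∧ m ≤ N ∧ ∃ (a b c x y z : ℤ) (p q r : ℕ), Reduced S R a b c x y z p q r ∧
          |((max (max x.natAbs y.natAbs) z.natAbs : ℕ) : ℝ) - G (f m)| ≤ (f m : ℝ) ^ θ} ⊆
        {m : ℕ | 1 ≤ m ∧ m ≤ N ∧ ∃ n : ℕ, (n = 0 ∨ n ∈ Val S R (fun x y z => max (max x y) z)) ∧
          |(n : ℝ) - G (f m)| ≤ (f m : ℝ) ^ θ} := by
      rintro m ⟨e1, e2, a, b, c, x, y, z, p, q, r, hred, e3⟩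
      exact ⟨e1, e2, _, Or.inr ⟨a, b, c, x, y, z, p, q, r, hred, rfl⟩, e3⟩
    exact_mod_cast Set.ncard_le_ncard hsub ((Set.finite_Icc 1 N).subset fun m hm => ⟨hm.1, hm.2.1⟩)
  · have hδ0 : 0 < (1 - θ - d / 3) / (2 * d) := div_pos (by linarith) (by linarith)
    have hδd : d * ((1 - θ - d / 3) / (2 * d)) = (1 - θ - d / 3) / 2 := by field_simp
    obtain ⟨R, C, hC, h⟩ := AllSolutionsByBases.result.2.2 S ((1 - θ - d / 3) / (2 * d)) hδ0
    refine ⟨R, fun G hG f hf U => ?_⟩
    obtain ⟨N₀, hN₀⟩ := keep_win_nat (Val S R (fun x y z => x * y * z)) hf hG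
      (s := 1 / 3 + (1 - θ - d / 3) / (2 * d)) (κ := θ) (by linarith) hθ
      (by rw [mul_add, hδd]; linarith) (fun ε hε => by
        refine ⟨C, fun X hX => ?_⟩
        have hX1 : (1 : ℝ) ≤ X := by exact_mod_cast hX
        obtain ⟨h5, h6⟩ := h X hX1
        have h7 := card_val S R (fun x y z => x * y * z) X (ByProduct S R X) h5 (by
          intro a b c x y z p q r hred hle
          refine ⟨a, b, c, x, y, z, p, q, r, hred.1, rfl, hred.2.1, hred.2.2.2.2.2.2, ?_⟩
          have h8 : ((x.natAbs * y.natAbs * z.natAbs : ℕ) : ℝ) ≤ X := by exact_mod_cast hle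
          rw [← Int.natAbs_mul, ← Int.natAbs_mul, Nat.cast_natAbs, Int.cast_abs] at h8
          exact h8)
        have h9 : (((Ioc 0 X).filter (fun t => t ∈ Val S R (fun x y z => x * y * z))).card : ℝ) ≤
            ((ByProduct S R X).ncard : ℝ) := by exact_mod_cast h7
        refine h9.trans (h6.trans ?_)
        apply mul_le_mul_of_nonneg_left _ hC.le
        apply Real.rpow_le_rpow_of_exponent_le hX1
        linarith) U
    refine ⟨N₀, fun N hN => le_trans ?_ (hN₀ N hN)⟩
    have hsub : {m : ℕ | 1 ≤ m ∧ m ≤ N ∧ ∃ (a b c x y z : ℤ) (p q r : ℕ), Reduced S R a b c x y z p q r ∧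
          |(((x * y * z).natAbs : ℕ) : ℝ) - G (f m)| ≤ (f m : ℝ) ^ θ} ⊆
        {m : ℕ | 1 ≤ m ∧ m ≤ N ∧ ∃ n : ℕ, (n = 0 ∨ n ∈ Val S R (fun x y z => x * y * z)) ∧
          |(n : ℝ) - G (f m)| ≤ (f m : ℝ) ^ θ} := by
      rintro m ⟨e1, e2, a, b, c, x, y, z, p, q, r, hred, e3⟩
      refine ⟨e1, e2, _, Or.inr ⟨a, b, c, x, y, z, p, q, r, hred, ?_⟩, e3⟩
      rw [Int.natAbs_mul, Int.natAbs_mul]
    exact_mod_cast Set.ncard_le_ncard hsub ((Set.finite_Icc 1 N).subset fun m hm => ⟨hm.1, hm.2.1⟩)

end Pool.Agent.N611.Shelf.Be1faeMultiplicativeValues
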