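import Pool.Agent.N733.TG.K
import Pool.Agent.Results.MP_f5a5f7_nt.StarshapedWeakAbc

/-!
# The weak abc conjecture over a number field near functions of the values of multiplicative functions

Let `f` be a positive multiplicative function of at most polynomial growth such that `f p ≤ M p` for the large primes `p`,
with different values at different large primes; for example Euler's function or the sum of the divisors. Let `G` have steps
bounded below by a positive constant and growth at most `v^d`, `d ≥ 1`; for example `G v = α v^d`. Let `K` be a number field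
of degree `D`, `H_K(x) = exp (D h(x))`, and `θ < 1`. For every such `d`, `θ` there is `κ` such that for all `m ≤ N` but
`N / (log N)^U` ALL `x ∈ K`, `x ≠ 0, 1`, with `|H_K(x) - G (f m)| ≤ f(m)^θ` satisfy
`h(x) ≤ κ (cond(x) + cond(1/x) + cond(x - 1) + 1)`. For a given `κ > 1` one has the strong form
`h(x) < κ (cond(x) + cond(1/x) + cond(x - 1)) - b`, `b` any constant, if `d min (4 / (7 κ)) (20 / 37) + θ < 1`; for `κ` near
`1` and `θ = 0` this is `d < 37 / 20`. The values of `f` are in general taken with very large multiplicities, and so this does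
not follow from the number of exceptions.

Proof. Write `m = k w` where `k` is composed of the primes `≤ z = N^(1 / J)`, `J` about `log log N`. For most `m` one has
`k ≤ N^η`, and `w` is a product of at most `J` different primes. So `f(w)` is taken at most `(1 + τ)^J` times, `τ` its number of
divisors, which is at most `N^o(1)` on average, even in mean square: and the exceptional set has a power saving. Its
size is bounded by the starting theorem `FewExceptions` of this problem.
-/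

set_option autoImplicit false

namespace Pool.Agent.Results.MP_f5a5f7_nt.MultiplicativeValues

open NumberField
open Pool.Agent.N733.TG (LM Expanding lm_totient lm_sigma keep_good expanding_pow)
open FewExceptions (height)
open StarshapedWeakAbc (Exc cond3)

/-- the conductor of the problem -/
noncomputable abbrev Cond {K : Type} [Field K] [NumberField K] (x : K) : ℝ := FewExceptions.cond x

/-- **The weak abc conjecture near the values of multiplicative functions.** Let `f` be multiplicative and positive, of at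
most polynomial growth, with `f p ≤ M p` at the large primes, and injective there. Let `G` have steps `≥ a > 0` and growth at
most `v^d`. Let `K` be a number field of degree `D` and `0 ≤ θ < 1`.
(1) There is `κ > 1`, depending only on `d` and `θ`, such that for every `U` and all large `N`, for all `m ≤ N` but
`N / (log N)^U`, ALL `x ∈ K`, `x ≠ 0, 1`, with `|exp (D h(x)) - G (f m)| ≤ f(m)^θ` satisfy
`h(x) ≤ κ (cond(x) + cond(1/x) + cond(x - 1) + 1)`.
(2) If `κ > 1`, `d min (4 / (7 κ)) (20 / 37) + θ < 1` and `b` is real, then for every `U` and all large `N`, for all `m ≤ N`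
but `N / (log N)^U`, all these `x` satisfy `h(x) < κ (cond(x) + cond(1/x) + cond(x - 1)) - b`.
Euler's function and the sum of the divisors are examples of such functions `f`, and `α v^d` with `α > 0`, `d ≥ 1` is an
example of `G`. -/
theorem result :
    (∀ d θ : ℝ, 1 ≤ d → 0 ≤ θ → θ < 1 → ∃ κ : ℝ, 1 < κ ∧
      ∀ (K : Type) [Field K] [NumberField K] (G : ℕ → ℝ), Expanding G d → ∀ f : ℕ → ℕ, LM f →
        ∀ U : ℕ, ∃ N₀ : ℕ, ∀ N : ℕ, N₀ ≤ N →
        ({m : ℕ | 1 ≤ m ∧ m ≤ N ∧ ¬ ∀ x : K, x ≠ 0 → x ≠ 1 →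
          |Real.exp ((Module.finrank ℚ K : ℝ) * height x) - G (f m)| ≤ (f m : ℝ) ^ θ →
            height x ≤ κ * (Cond x + Cond x⁻¹ + Cond (x - 1) + 1)}.ncard : ℝ) ≤ N / Real.log N ^ U) ∧
    (∀ d θ κ b : ℝ, 0 ≤ θ → 1 < κ → d * min (4 / (7 * κ)) (20 / 37) + θ < 1 →
      ∀ (K : Type) [Field K] [NumberField K] (G : ℕ → ℝ), Expanding G d → ∀ f : ℕ → ℕ, LM f →
        ∀ U : ℕ, ∃ N₀ : ℕ, ∀ N : ℕ, N₀ ≤ N →
        ({m : ℕ | 1 ≤ m ∧ m ≤ N ∧ ¬ ∀ x : K, x ≠ 0 → x ≠ 1 →
          |Real.exp ((Module.finrank ℚ K : ℝ) * height x) - G (f m)| ≤ (f m : ℝ) ^ θ →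
            height x < κ * (Cond x + Cond x⁻¹ + Cond (x - 1)) - b}.ncard : ℝ) ≤ N / Real.log N ^ U) ∧
    (LM Nat.totient ∧ LM (fun m => ∑ d ∈ m.divisors, d)) ∧
    ∀ α d : ℝ, 0 < α → 1 ≤ d → Expanding (fun v => α * (v : ℝ) ^ d) d := by
  have main : ∀ d θ κ b : ℝ, 0 ≤ θ → 1 < κ → d * min (4 / (7 * κ)) (20 / 37) + θ < 1 →
      ∀ (K : Type) [Field K] [NumberField K] (G : ℕ → ℝ), Expanding G d → ∀ f : ℕ → ℕ, LM f →
        ∀ U : ℕ, ∃ N₀ : ℕ, ∀ N : ℕ, N₀ ≤ N →
        ({m : ℕ | 1 ≤ m ∧ m ≤ N ∧ ¬ ∀ x : K, x ≠ 0 → x ≠ 1 →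
          |Real.exp ((Module.finrank ℚ K : ℝ) * height x) - G (f m)| ≤ (f m : ℝ) ^ θ →
            height x < κ * (Cond x + Cond x⁻¹ + Cond (x - 1)) - b}.ncard : ℝ) ≤ N / Real.log N ^ U := by
    intro d θ κ b hθ hκ h1 K _ _ G hG f hf U
    have hκ0 : 0 < κ := by linarith
    have key : ∀ x : K, x ∈ Exc K κ b ↔ ((x ≠ 0 ∧ x ≠ 1) ∧ ¬ height x < κ * (Cond x + Cond x⁻¹ + Cond (x - 1)) - b) := by
      intro x
      constructor
      · rintro ⟨a1, a2, a3⟩
        refine ⟨⟨a1, a2⟩, not_lt.2 ?_⟩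
        have : κ * (Cond x + Cond x⁻¹ + Cond (x - 1)) ≤ height x + b := a3
        linarith
      · rintro ⟨⟨a1, a2⟩, a3⟩
        refine ⟨a1, a2, ?_⟩
        show κ * (Cond x + Cond x⁻¹ + Cond (x - 1)) ≤ height x + b
        linarith [not_lt.1 a3]
    obtain ⟨N₀, hN₀⟩ := keep_good (T := K) (fun x => x ≠ 0 ∧ x ≠ 1)
      (fun x => height x < κ * (Cond x + Cond x⁻¹ + Cond (x - 1)) - b)
      (fun x => Real.exp ((Module.finrank ℚ K : ℝ) * height x)) hf hG
      (s := min (4 / (7 * κ)) (20 / 37)) (κ := θ) (le_min (by positivity) (by norm_num)) hθ h1 (fun ε hε => by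
        obtain ⟨C, hC⟩ := StarshapedWeakAbc.count K κ b hκ ε hε
        refine ⟨C, fun X hX => ?_⟩
        have hset : {t : K | ((t ≠ 0 ∧ t ≠ 1) ∧ ¬ height t < κ * (Cond t + Cond t⁻¹ + Cond (t - 1)) - b) ∧
            Real.exp ((Module.finrank ℚ K : ℝ) * height t) ≤ X} =
            {x | x ∈ Exc K κ b ∧ Real.exp ((Module.finrank ℚ K : ℝ) * height x) ≤ X} := by
          ext x
          exact and_congr_left' (key x).symm
        rw [hset]
        exact hC X hX) U
    refine ⟨N₀, fun N hN => le_trans (le_of_eq ?_) (hN₀ N hN)⟩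
    congr 2
    ext m
    simp only [Set.mem_ofPred_eq, and_imp]
  refine ⟨fun d θ hd hθ hθ1 => ?_, main, ⟨lm_totient, lm_sigma⟩, fun α d hα hd => expanding_pow hα hd⟩
  obtain ⟨κ, hκ⟩ : ∃ κ : ℝ, κ = d / (1 - θ) + 1 := ⟨_, rfl⟩
  have hθ0 : 0 < 1 - θ := by linarith
  have hκ1 : 1 < κ := by
    rw [hκ]
    have : 0 < d / (1 - θ) := div_pos (by linarith) hθ0
    linarith
  have h1 : d * min (4 / (7 * κ)) (20 / 37) + θ < 1 := by
    have h2 : d * min (4 / (7 * κ)) (20 / 37) ≤ d * (4 / (7 * κ)) :=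
      mul_le_mul_of_nonneg_left (min_le_left _ _) (by linarith)
    have h3 : d * (4 / (7 * κ)) < 1 - θ := by
      have h4 : d < κ * (1 - θ) := by
        rw [hκ, add_mul, div_mul_cancel₀ _ hθ0.ne']
        linarith
      rw [mul_div_assoc', div_lt_iff₀ (by linarith)]
      nlinarith
    linarith
  refine ⟨κ, hκ1, fun K _ _ G hG f hf U => ?_⟩
  obtain ⟨N₀, hN₀⟩ := main d θ κ 0 hθ hκ1 h1 K G hG f hf U
  refine ⟨N₀, fun N hN => le_trans ?_ (hN₀ N hN)⟩
  have hsub : {m : ℕ | 1 ≤ m ∧ m ≤ N ∧ ¬ ∀ x : K, x ≠ 0 → x ≠ 1 →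
          |Real.exp ((Module.finrank ℚ K : ℝ) * height x) - G (f m)| ≤ (f m : ℝ) ^ θ →
            height x ≤ κ * (Cond x + Cond x⁻¹ + Cond (x - 1) + 1)} ⊆
      {m : ℕ | 1 ≤ m ∧ m ≤ N ∧ ¬ ∀ x : K, x ≠ 0 → x ≠ 1 →
          |Real.exp ((Module.finrank ℚ K : ℝ) * height x) - G (f m)| ≤ (f m : ℝ) ^ θ →
            height x < κ * (Cond x + Cond x⁻¹ + Cond (x - 1)) - 0} := by
    rintro m ⟨a1, a2, a3⟩
    refine ⟨a1, a2, fun a4 => a3 fun x x0 x1 hx => ?_⟩
    have := a4 x x0 x1 hx
    nlinarith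
  exact_mod_cast Set.ncard_le_ncard hsub ((Set.finite_Icc 1 N).subset fun m hm => ⟨hm.1, hm.2.1⟩)

end Pool.Agent.Results.MP_f5a5f7_nt.MultiplicativeValues
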